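import Pool.Agent.Run7.h751.KS.Ext

/-!
# Extreme values of `ζ(1 + iγ)` at isolated simple zeros

Unconditionally, for every `η > 0` there are `d, c, δ > 0` such that for all large `T` and all
intervals `(T, T + K]` with `T ^ (1 - δ) ≤ K ≤ T / 2`, where an isolated zero is a zero `1/2 + iγ` of
zeta with `T < γ ≤ T + K` that is simple, lies on the critical line and has distance at least
`d / log γ` from every other zero:

* for every `w` in the closed unit disc, `ζ(1 + iγ)` is within `η log log T` of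
  `w e ^ γ₀ log log T` (`γ₀` is Euler's constant) for at least `K exp (- (log T) ^ max (|w|, η))`
  isolated zeros;
* the same for `1 / ζ(1 + iγ)` and `w (6 / π²) e ^ γ₀ log log T`;
* for all `Y` between a constant and `c log T / (log log T)²` and all unimodular numbers `z_p`, at
  least `(K / 4π) log T / Y ^ (2 Y)` isolated zeros satisfy `|p ^ (- iγ) - z_p| ≤ η √(p / Y)` for all
  primes `p ≤ Y` and `|ζ(1 + iγ) ∏ (1 - z_p / p) - 1| ≤ η`.

The proof: the weight `|R|²` with `R(t) = ∏ (1 + conj z_p p ^ (- it)) ^ (K_p)`,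
`K_p ≍ (Y / p) log Y`, is put into the theorem that isolated simple zeros carry a positive share of
every weight of length `T ^ δ`; the value of zeta is compared with its Euler product over `p ≤ Y` by
a mean value with a power saving (`Pool.Agent.Run7.h751.KS`).
-/

open Filter Topology Complex

namespace Pool.Agent.Results.MP_6bc78b_nt.ExtremeValuesOneLine

/-- the zeros of zeta in the open critical strip with ordinates in `(T₁, T₂]` -/
def zeros (T₁ T₂ : ℝ) : Set ℂ :=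
  {s : ℂ | riemannZeta s = 0 ∧ 0 < s.re ∧ s.re < 1 ∧ T₁ < s.im ∧ s.im ≤ T₂}

/-- the multiplicity of a zero of zeta -/
noncomputable def mult (s : ℂ) : ℕ := analyticOrderNatAt riemannZeta s

/-- the zeros in `zeros T₁ T₂` that are simple, lie on the critical line and have distance at least
`d / log (Im s)` from all other zeros of zeta in the open critical strip -/
def isolated (d T₁ T₂ : ℝ) : Set ℂ :=
  {s : ℂ | s ∈ zeros T₁ T₂ ∧ s.re = 1 / 2 ∧ mult s = 1 ∧
    ∀ s' : ℂ, riemannZeta s' = 0 → 0 < s'.re → s'.re < 1 → s' ≠ s →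
      d / Real.log s.im ≤ ‖s' - s‖}

/-- the primes up to `Y` -/
def P (Y : ℕ) : Finset ℕ := (Finset.Icc 1 Y).filter Nat.Prime

/-- `e ^ γ₀`, with Euler's constant `γ₀` -/
noncomputable def eg : ℝ := Real.exp Real.eulerMascheroniConstant

lemma zeros_eq {T₁ T₂ : ℝ} (h : 1 ≤ T₁) :
    zeros T₁ T₂ = (H370.Zf riemannZeta T₁ T₂ : Set ℂ) := by
  ext s
  rw [Finset.mem_coe, H370.mem_Zf H370.good_zeta h]
  unfold zeros H370.zset
  simp only [Set.mem_ofPred_eq]
  tauto

/-- the sets of zeros are finite -/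
theorem zeros_finite (T₁ T₂ : ℝ) (h : 1 ≤ T₁) : (zeros T₁ T₂).Finite := by
  rw [zeros_eq h]
  exact Finset.finite_toSet _

theorem isolated_finite (d T₁ T₂ : ℝ) (h : 1 ≤ T₁) : (isolated d T₁ T₂).Finite :=
  (zeros_finite T₁ T₂ h).subset fun _ hs => hs.1

lemma ph_eq {p : ℕ} (hp : p.Prime) (t : ℝ) :
    Run7.h751.KS.ph p t = (p : ℂ) ^ (-(I * t)) := by
  have hp0 : (p : ℂ) ≠ 0 := by exact_mod_cast hp.ne_zero
  unfold Run7.h751.KS.ph N802.mn
  rw [Complex.cpow_def_of_ne_zero hp0, ← Complex.natCast_log]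
  congr 1
  rw [Nat.cast_one, Real.log_one]
  push_cast
  ring

lemma pt_eq (t : ℝ) : Run7.h751.KS.pt 1 t = 1 + I * t := by
  unfold Run7.h751.KS.pt
  push_cast
  ring

lemma ncard_eq {d T K : ℝ} (h : 1 ≤ T) (Q : ℝ → Prop) :
    ({s : ℂ | s ∈ isolated d T (T + K) ∧ Q s.im}.ncard : ℝ) =
      ((Run7.h751.KS.GV d Q T K).card : ℝ) := by
  classical
  have e : {s : ℂ | s ∈ isolated d T (T + K) ∧ Q s.im} =
      (Run7.h751.KS.GV d Q T K : Set ℂ) := by
    ext s
    rw [Finset.mem_coe, Run7.h751.KS.GV, Finset.mem_filter, ← Finset.mem_coe, ← zeros_eq h]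
    unfold isolated Run7.h751.KS.iso
    simp only [Set.mem_ofPred_eq]
    constructor
    · rintro ⟨⟨h1, h2⟩, h3⟩
      exact ⟨h1, h2, h3⟩
    · rintro ⟨h1, h2, h3⟩
      exact ⟨⟨h1, h2⟩, h3⟩
  rw [e, Set.ncard_coe_finset]

theorem result : ∀ η : ℝ, 0 < η → ∃ d c δ T₀ : ℝ, ∃ Y₀ : ℕ, 0 < d ∧ 0 < c ∧ 0 < δ ∧
    ∀ T : ℝ, T₀ ≤ T → ∀ K : ℝ, T ^ (1 - δ) ≤ K → K ≤ T / 2 →
    (∀ w : ℂ, ‖w‖ ≤ 1 → K * Real.exp (-(Real.log T ^ (max ‖w‖ η))) ≤
      ({s : ℂ | s ∈ isolated d T (T + K) ∧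
        ‖riemannZeta (1 + I * s.im) - w * eg * Real.log (Real.log T)‖ ≤
          η * Real.log (Real.log T)}.ncard : ℝ)) ∧
    (∀ w : ℂ, ‖w‖ ≤ 1 → K * Real.exp (-(Real.log T ^ (max ‖w‖ η))) ≤
      ({s : ℂ | s ∈ isolated d T (T + K) ∧
        ‖(riemannZeta (1 + I * s.im))⁻¹ -
          w * (6 / Real.pi ^ 2 * eg : ℝ) * Real.log (Real.log T)‖ ≤
            η * Real.log (Real.log T)}.ncard : ℝ)) ∧
    (∀ Y : ℕ, Y₀ ≤ Y → Y * Real.log (Real.log T) ^ 2 ≤ c * Real.log T →
      ∀ z : ℕ → ℂ, (∀ p : ℕ, p.Prime → ‖z p‖ = 1) →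
      K / (4 * Real.pi) * Real.log T / (Y : ℝ) ^ (2 * Y) ≤
        ({s : ℂ | s ∈ isolated d T (T + K) ∧
          ((∀ p ∈ P Y, ‖(p : ℂ) ^ (-(I * s.im)) - z p‖ ≤ η * √((p : ℝ) / Y)) ∧
            ‖riemannZeta (1 + I * s.im) * ∏ p ∈ P Y, (1 - z p / p) - 1‖ ≤ η)}.ncard : ℝ)) := by
  intro η hη
  obtain ⟨d, c, δ, T0, Y0, hd, hc, hδ, hT0, h⟩ := Run7.h751.KS.main hη
  refine ⟨d, c, δ, T0, max Y0 1, hd, hc, hδ, fun T hT K hK1 hK2 => ?_⟩
  have hT1 : 1 ≤ T := by linarith
  have hT16 : 16 ≤ T := by linarith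
  obtain ⟨h1, h2, h3⟩ := h T hT K hK1 hK2
  refine ⟨fun w hw => ?_, fun w hw => ?_, fun Y hY1 hY2 z hz => ?_⟩
  · refine (h2 w hw).trans (le_of_eq ?_)
    rw [← ncard_eq hT1]
    congr 2
    ext s
    simp only [Set.mem_ofPred_eq]
    refine and_congr_right fun _ => ?_
    unfold Run7.h751.KS.V1
    rw [pt_eq]
    rfl
  · refine (h3 w hw).trans (le_of_eq ?_)
    rw [← ncard_eq hT1]
    congr 2
    ext s
    simp only [Set.mem_ofPred_eq]
    refine and_congr_right fun _ => ?_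
    unfold Run7.h751.KS.V2
    rw [pt_eq]
    rfl
  · have hlog : 1 < Real.log T := by
      have h5 : Real.log (Real.exp 1) < Real.log T :=
        Real.log_lt_log (Real.exp_pos 1) (by linarith [Real.exp_one_lt_d9])
      rwa [Real.log_exp] at h5
    have hll : 0 < Real.log (Real.log T) := Real.log_pos hlog
    have hYc : Y ≤ Run7.h751.KS.Yc c T := by
      unfold Run7.h751.KS.Yc
      refine Nat.le_floor ?_
      rw [le_div_iff₀ (by positivity)]
      exact hY2
    have h4 := h1 Y ((le_max_left _ _).trans hY1) hYc z hz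
    have hY0 : (0 : ℝ) < Y := by
      have : 1 ≤ Y := (le_max_right _ _).trans hY1
      exact_mod_cast this
    rw [div_le_iff₀ (by positivity)]
    have e1 : K / (4 * Real.pi) * Real.log T = Run7.h751.KS.M0 T K / 2 := by
      unfold Run7.h751.KS.M0
      ring
    rw [e1]
    refine h4.trans (le_of_eq ?_)
    rw [← ncard_eq hT1]
    congr 3
    ext s
    simp only [Set.mem_ofPred_eq]
    refine and_congr_right fun _ => and_congr ?_ ?_
    · unfold Run7.h751.KS.near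
      refine forall_congr' fun p => forall_congr' fun hp => ?_
      rw [ph_eq (Run7.h751.KS.PY_prime hp)]
    · unfold Run7.h751.KS.eulerz
      rw [pt_eq]
      rfl

end Pool.Agent.Results.MP_6bc78b_nt.ExtremeValuesOneLine
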