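import Pool.Agent.Run7.h311.LW.Kro
import Pool.Agent.W354.ZP.Num

/-!
# The law of `ζ'` at simple zeros, relative to every Dirichlet polynomial

Let `a < b` and `ε > 0`. For real `t` and `P ≥ 1` put
`x(t) = (log |ζ'(1/2+it)| - log log T - log |∏_{p ≤ P} (1 - p ^ (-1/2-it))^(-1)|) / √v`,
`v = (1/2) ∑_{P < p ≤ T} 1/p`, the normalised size of the derivative after removing the primes `p ≤ P`.
Unconditionally:

* there are `d, δ > 0` such that for all large `T`, all `P ≤ T ^ δ` and ALL Dirichlet polynomials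
  `B(t) = ∑_{n ≤ N} c_n n ^ (-1/2-it)` of length `N ≤ T ^ δ` whose coefficients are supported on numbers without
  prime factors `> P` (for `P = N` this is no condition), the sum of `|B(γ)|²` over the ordinates `γ` in `(T, 2T]`
  of simple zeros `1/2 + iγ` of zeta at distance at least `d / log T` from all other zeros in the critical strip
  and with `a < x(γ) < b` is at least
  `(0.6725 Φ(a, b) - ε) (log T / 2π) T ∑ |c_n|² / n`, where `Φ(a, b)` is the standard normal mass of `(a, b)` and
  `(log T / 2π) T ∑ |c_n|² / n` is, up to `1 + o(1)`, the sum of `|B|²` over all zeros;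
* there is `d > 0` such that for every `η > 0` there is `κ > 0` such that for all large `T`, all `P` with
  `P log log T ≤ κ log T` and all unimodular numbers `z_p` at least `T ^ (1 - η)` of these zeros with
  `a < x(γ) < b` satisfy `|p ^ (iγ) - z_p| ≤ ε` for all primes `p ≤ P`: prescribing the phases of all small
  primes does not change the range of the rest of `ζ'`.

The first part with `B = 1` and `P = 1` is (for the interval `(T, 2T]`) the starting result `LawOfDerivative`.
Proof: the local trace inequality (library `Q97/UM`) is integrated against `|B|²` times the indicator function of an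
event on the sum `∑_{P < p ≤ T ^ δ} p ^ (-1/2-it)`; the pair correlation kernel and the number of zeros in windows
are nonnegative kernels for which every `|∑ e_n n ^ (-1/2-it)|²` has the expected mean; by polarization and
the method of moments the sum over primes is then Gaussian with respect to each of them and every `|B|²`.
-/

set_option autoImplicit false

open Filter Topology Complex

namespace Pool.Agent.Results.MP_6bc78b_nt.LawEveryWeight

/-- the Dirichlet polynomial `∑ c_n n^(-1/2-it)`, `n ≤ N` -/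
noncomputable def D (N : ℕ) (c : ℕ → ℂ) (t : ℝ) : ℂ :=
  ∑ n ∈ Finset.Icc 1 N, c n * (n : ℂ) ^ (-(1 / 2 + t * I))

/-- `∑ |c_n|² / n`, `n ≤ N` -/
noncomputable def norm2 (N : ℕ) (c : ℕ → ℂ) : ℝ := ∑ n ∈ Finset.Icc 1 N, ‖c n‖ ^ 2 / n

/-- the logarithm of the modulus of the Euler product over the primes `p ≤ P` at `1/2 + it` -/
noncomputable def eulerLog (P : ℕ) (t : ℝ) : ℝ :=
  -∑ p ∈ (Finset.Icc 1 P).filter Nat.Prime, Real.log ‖1 - (p : ℂ) ^ (-(1 / 2 + t * I))‖

/-- the derivative of zeta at the point `1/2 + it` -/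
noncomputable def dz (t : ℝ) : ℂ := deriv riemannZeta (1 / 2 + t * I)

/-- the ordinates `t` in `(T, 2T]` of the simple zeros `1/2 + it` of zeta at distance at least
`d / log T` from all other zeros of zeta in the open critical strip -/
def isolated (d T : ℝ) : Set ℝ :=
  {t : ℝ | T < t ∧ t ≤ 2 * T ∧ riemannZeta (1 / 2 + t * I) = 0 ∧ dz t ≠ 0 ∧
    ∀ s : ℂ, riemannZeta s = 0 → 0 < s.re → s.re < 1 → s ≠ 1 / 2 + t * I →
      d / Real.log T ≤ ‖s - (1 / 2 + t * I)‖}

/-- half the sum of `1 / p` over the primes `p` with `P < p ≤ T` -/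
noncomputable def variance (P : ℕ) (T : ℝ) : ℝ :=
  (1 / 2) * ∑ p ∈ (Finset.Icc 1 ⌊T⌋₊).filter (fun p => p.Prime ∧ P < p), (1 : ℝ) / p

/-- the normalised size of the derivative, without the primes `p ≤ P` -/
noncomputable def size (P : ℕ) (T t : ℝ) : ℝ :=
  (Real.log ‖dz t‖ - Real.log (Real.log T) - eulerLog P t) / Real.sqrt (variance P T)

/-- the isolated zeros at which the normalised size of the derivative lies in `(a, b)` -/
def typical (a b d : ℝ) (P : ℕ) (T : ℝ) : Set ℝ := {t ∈ isolated d T | a < size P T t ∧ size P T t < b}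

/-- the mass of `(a, b)` under the standard normal law -/
noncomputable def normalMass (a b : ℝ) : ℝ := ∫ x in a..b, Real.exp (-x ^ 2 / 2) / Real.sqrt (2 * Real.pi)

/-- `c` is supported on positive integers without prime factors greater than `P` -/
def Smooth (P : ℕ) (c : ℕ → ℂ) : Prop := ∀ n, c n ≠ 0 → ∀ p : ℕ, p.Prime → p ∣ n → p ≤ P

open Pool.Agent.Q97.UM Run7.h311.LW

lemma point {s : ℂ} (h : s.re = 1 / 2) : (1 / 2 + (s.im : ℂ) * I : ℂ) = s := by
  apply Complex.ext <;> simp [h]

lemma isolated_finite (d : ℝ) {T : ℝ} (hT : 1 ≤ T) : (isolated d T).Finite := by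
  have h1 : isolated d T ⊆ Complex.im '' ((H370.Zf riemannZeta T (2 * T) : Finset ℂ) : Set ℂ) := by
    rintro t ⟨h1, h2, h3, -, -⟩
    refine ⟨1 / 2 + t * I, ?_, by simp⟩
    rw [Finset.mem_coe, H370.mem_Zf H370.good_zeta hT]
    exact ⟨by simp, by norm_num, by simpa using h1, by simpa using h2, h3⟩
  exact ((Finset.finite_toSet _).image _).subset h1

lemma mem_isolated {d T : ℝ} (hd : d ≤ 1) (hT : 16 ≤ T) {s : ℂ} (hs : s ∈ ZI d T) :
    s.im ∈ isolated d T := by
  have hre := (Pool.Agent.Q98.UM.mem_ZI hs).2.1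
  have hmz := (Pool.Agent.Q98.UM.mem_ZI hs).2.2
  have hz := (H370.mem_Zf H370.good_zeta (by linarith : 1 ≤ T)).1 (Pool.Agent.Q98.UM.mem_ZI hs).1
  obtain ⟨-, -, h1, h2, h0⟩ := hz
  have e := point hre
  refine ⟨h1, h2, by rw [e]; exact h0, ?_, ?_⟩
  · unfold dz
    rw [e]
    exact Pool.Agent.Q98.UM.deriv_ne hre hmz
  · intro s' h3 h4 h5 h6
    rw [e] at h6 ⊢
    unfold ZI at hs
    rw [Finset.mem_filter] at hs
    have hlog : 1 ≤ Real.log T := by
      rw [Real.le_log_iff_exp_le (by linarith)]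
      linarith [Real.exp_one_lt_d9]
    have hdl : d / Real.log T ≤ 1 := by
      rw [div_le_one (by linarith)]
      linarith
    by_cases h7 : s' ∈ ZD T
    · have h8 := hs.2.2.2 s' h7 h6
      rw [norm_sub_rev] at h8
      exact h8
    · have h8 : ¬ (T / 16 < s'.im ∧ s'.im ≤ 16 * T) := fun h => h7 (by
        unfold ZD
        rw [H370.mem_Zf H370.good_zeta (by linarith : 1 ≤ T / 16)]
        exact ⟨h4, h5, h.1, h.2, h3⟩)
      have h9 : 1 ≤ |(s' - s).im| := by
        rw [Complex.sub_im]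
        by_cases h10 : T / 16 < s'.im
        · have h11 : 16 * T < s'.im := by
            by_contra h12
            exact h8 ⟨h10, by linarith⟩
          rw [abs_of_nonneg (by linarith)]
          linarith
        · rw [abs_of_nonpos (by linarith)]
          linarith
      exact hdl.trans (h9.trans (Complex.abs_im_le_norm _))

lemma mem_typical {a b d T : ℝ} {P : ℕ} (hd : d ≤ 1) (hT : 16 ≤ T) {s : ℂ} (hs : s ∈ ZT2 a b d P T) :
    s.im ∈ typical a b d P T := by
  unfold ZT2 at hs
  rw [Finset.mem_filter] at hs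
  have e : size P T s.im = AA P T s / Real.sqrt (vz P T) := by
    unfold size AA dz
    rw [point (Pool.Agent.Q98.UM.mem_ZI hs.1).2.1]
    rfl
  refine ⟨mem_isolated hd hT hs.1, ?_⟩
  rw [e]
  exact hs.2

lemma im_inj {a b d T : ℝ} {P : ℕ} : Set.InjOn Complex.im (ZT2 a b d P T : Set ℂ) := by
  intro s hs s' hs' h
  unfold ZT2 at hs hs'
  rw [Finset.mem_coe, Finset.mem_filter] at hs hs'
  exact Complex.ext ((Pool.Agent.Q98.UM.mem_ZI hs.1).2.1.trans (Pool.Agent.Q98.UM.mem_ZI hs'.1).2.1.symm) h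

/-- truncated coefficients -/
noncomputable def cut (N : ℕ) (c : ℕ → ℂ) (n : ℕ) : ℂ := if 1 ≤ n ∧ n ≤ N then c n else 0

lemma cut_bs {P N : ℕ} {c : ℕ → ℂ} (h : Smooth P c) : Bs P N (cut N c) := by
  intro n hn
  unfold cut at hn
  by_cases h1 : 1 ≤ n ∧ n ≤ N
  · rw [if_pos h1] at hn
    exact ⟨h1.1, h1.2, h n hn⟩
  · exact absurd (if_neg h1) hn

lemma D_cut (N : ℕ) (c : ℕ → ℂ) (t : ℝ) : D N c t = dp N (cut N c) t := by
  unfold D dp
  refine Finset.sum_congr rfl fun n hn => ?_
  rw [Finset.mem_Icc] at hn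
  unfold cut
  rw [if_pos hn]

lemma norm2_cut (N : ℕ) (c : ℕ → ℂ) : norm2 N c = N2 N (cut N c) := by
  unfold norm2 N2
  refine Finset.sum_congr rfl fun n hn => ?_
  rw [Finset.mem_Icc] at hn
  unfold cut
  rw [if_pos hn]

lemma mass_eq {a b : ℝ} (hab : a < b) : gm a b = normalMass a b := by
  unfold gm normalMass
  rw [MeasureTheory.measureReal_def, ProbabilityTheory.gaussianReal_apply_eq_integral _ one_ne_zero,
    ENNReal.toReal_ofReal (MeasureTheory.integral_nonneg fun x => ProbabilityTheory.gaussianPDFReal_nonneg _ _ _),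
    intervalIntegral.integral_of_le hab.le, MeasureTheory.integral_Ioc_eq_integral_Ioo]
  refine MeasureTheory.integral_congr_ae (Filter.Eventually.of_forall fun x => ?_)
  simp only [ProbabilityTheory.gaussianPDFReal, NNReal.coe_one, mul_one, sub_zero]
  rw [div_eq_inv_mul (Real.exp _)]

lemma mass_pos {a b : ℝ} (hab : a < b) : 0 < gm a b := by
  rw [mass_eq hab]
  unfold normalMass
  refine intervalIntegral.intervalIntegral_pos_of_pos_on ?_ (fun x _ => by positivity) hab
  refine Continuous.intervalIntegrable ?_ _ _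
  fun_prop

/-- **the law of the derivative at isolated simple zeros, relative to every Dirichlet polynomial** -/
theorem result (a b ε : ℝ) (hab : a < b) (hε : 0 < ε) :
    (∃ d δ : ℝ, 0 < d ∧ 0 < δ ∧ ∀ᶠ T : ℝ in atTop, ∀ (P N : ℕ) (c : ℕ → ℂ), (P : ℝ) ≤ T ^ δ → (N : ℝ) ≤ T ^ δ →
      Smooth P c → (typical a b d P T).Finite ∧
      (0.6725 * normalMass a b - ε) * (Real.log T / (2 * Real.pi)) * (T * norm2 N c) ≤
        ∑ᶠ t ∈ typical a b d P T, ‖D N c t‖ ^ 2) ∧
    (∃ d : ℝ, 0 < d ∧ ∀ η : ℝ, 0 < η → ∃ κ : ℝ, 0 < κ ∧ ∀ᶠ T : ℝ in atTop, ∀ P : ℕ,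
      P * Real.log (Real.log T) ≤ κ * Real.log T → ∀ z : ℕ → ℂ, (∀ p, ‖z p‖ = 1) →
        T ^ (1 - η) ≤ (({t ∈ typical a b d P T | ∀ p : ℕ, p.Prime → p ≤ P →
          ‖(p : ℂ) ^ (t * I) - z p‖ ≤ ε}).ncard : ℝ)) := by
  classical
  constructor
  · obtain ⟨d, δ, hd, hd1, hδ, h⟩ := zfin2 hab hε
    refine ⟨d, δ, hd, hδ, ?_⟩
    filter_upwards [h, eventually_ge_atTop 16] with T h hT P N c hP hN hc
    have hfin : (typical a b d P T).Finite := (isolated_finite d (by linarith)).subset fun t ht => ht.1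
    refine ⟨hfin, ?_⟩
    have h1 := h P N (cut N c) hP hN (cut_bs hc)
    rw [← norm2_cut, mass_eq hab] at h1
    have h2 : (0.6725 * normalMass a b - ε) * (Real.log T / (2 * Real.pi)) * (T * norm2 N c) ≤
        ((2 - H370.cMTinv) * normalMass a b - ε) * (Real.log T / (2 * Real.pi)) * (T * norm2 N c) := by
      have h3 := Pool.Agent.W354.ZP.cMTinv_sharp
      have h4 : 0 ≤ normalMass a b := by rw [← mass_eq hab]; exact gm_nn a b
      have h5 : 0 ≤ Real.log T / (2 * Real.pi) := by
        have : 0 ≤ Real.log T := Real.log_nonneg (by linarith)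
        positivity
      have h6 : 0 ≤ T * norm2 N c := by
        unfold norm2
        positivity
      have h7 : 0.6725 * normalMass a b ≤ (2 - H370.cMTinv) * normalMass a b :=
        mul_le_mul_of_nonneg_right (by norm_num at h3 ⊢; linarith) h4
      exact mul_le_mul_of_nonneg_right (mul_le_mul_of_nonneg_right (by linarith) h5) h6
    refine h2.trans (h1.trans ?_)
    rw [finsum_mem_eq_finite_toFinset_sum _ hfin]
    have e : ∑ s ∈ ZT2 a b d P T, ‖dp N (cut N c) s.im‖ ^ 2 =
        ∑ t ∈ (ZT2 a b d P T).image Complex.im, ‖D N c t‖ ^ 2 := by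
      rw [Finset.sum_image im_inj]
      refine Finset.sum_congr rfl fun s _ => ?_
      rw [D_cut]
    rw [e]
    apply Finset.sum_le_sum_of_subset_of_nonneg
    · intro t ht
      rw [Finset.mem_image] at ht
      obtain ⟨s, hs, rfl⟩ := ht
      rw [Set.Finite.mem_toFinset]
      exact mem_typical hd1 hT hs
    · intro t _ _
      positivity
  · obtain ⟨d, hd, h⟩ := kro (mass_pos hab)
    refine ⟨min d 1, by positivity, fun η hη => ?_⟩
    obtain ⟨κ, hκ, h⟩ := h ε η hε hη
    refine ⟨κ, hκ, ?_⟩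
    filter_upwards [h, eventually_ge_atTop 16] with T h hT P hP z hz
    refine (h P hP z hz).trans ?_
    have hL0 : 0 < Real.log T := Real.log_pos (by linarith)
    have hmd : ∀ s : ℂ, s ∈ ZI d T → s ∈ ZI (min d 1) T := by
      intro s hs
      unfold ZI at hs ⊢
      rw [Finset.mem_filter] at hs ⊢
      refine ⟨hs.1, hs.2.1, hs.2.2.1, fun s' h1 h2 => le_trans ?_ (hs.2.2.2 s' h1 h2)⟩
      exact div_le_div_of_nonneg_right (min_le_left _ _) hL0.le
    have hmt : ∀ s : ℂ, s ∈ ZT2 a b d P T → s ∈ ZT2 a b (min d 1) P T := by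
      intro s hs
      unfold ZT2 at hs ⊢
      rw [Finset.mem_filter] at hs ⊢
      exact ⟨hmd s hs.1, hs.2⟩
    have hfin : ({t ∈ typical a b (min d 1) P T | ∀ p : ℕ, p.Prime → p ≤ P →
          ‖(p : ℂ) ^ (t * I) - z p‖ ≤ ε}).Finite :=
      (isolated_finite (min d 1) (by linarith : 1 ≤ T)).subset fun t ht => ht.1.1
    have h1 : (((ZT2 a b d P T).filter (fun s => ∀ p : ℕ, p.Prime → p ≤ P →
        ‖(p : ℂ) ^ (s.im * I) - z p‖ ≤ ε)).card) ≤ ({t ∈ typical a b (min d 1) P T | ∀ p : ℕ, p.Prime → p ≤ P →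
          ‖(p : ℂ) ^ (t * I) - z p‖ ≤ ε}).ncard := by
      rw [← Set.ncard_coe_finset]
      refine Set.ncard_le_ncard_of_injOn Complex.im ?_ ?_ hfin
      · intro s hs
        rw [Finset.mem_coe, Finset.mem_filter] at hs
        exact ⟨mem_typical (min_le_right _ _) hT (hmt s hs.1), hs.2⟩
      · intro s hs s' hs' he
        rw [Finset.mem_coe, Finset.mem_filter] at hs hs'
        exact im_inj (Finset.mem_coe.2 hs.1) (Finset.mem_coe.2 hs'.1) he
    exact_mod_cast h1

end Pool.Agent.Results.MP_6bc78b_nt.LawEveryWeight
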