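import Pool.Agent.Run7.h833.SG.D
import Pool.Agent.H370R2.DirGood
import Pool.Agent.Run7.h336.CA16
import Pool.Agent.Run7.h833.CAz.P8
import Pool.Agent.Run7.h833.CAz.P10
import Pool.Agent.Run7.h833.CAz.P11
import Pool.Agent.Run7.h114.CA.P9
import Pool.Agent.H24R2.JP.Grow

set_option autoImplicit false

/-!
# MP_6bc78b_nt: the zeros lost to multiplicity and the growth of one limit function

For `a > 0` let `W a` be Weil's quadratic form on the functions supported in `[-a, a]`, written through the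
pole, the archimedean place and the prime powers up to `exp (2 a)`; no zero of `ζ` enters.  Relative to the
mass of the transform on a fixed window of the critical line its minimum `low k a` is attained, and there is
one entire function `E a`, with all zeros simple and on the critical line, such that the transforms of the
minimisers are the products of `E a` with the polynomials of degree less than `d a`.

Under the Riemann hypothesis `E a (1/2 + x) / E a (1/2)` has a limit `g x` for every real `x`, and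
`1 < g x ≤ c x = ξ(1/2 + x) / ξ(1/2)` for `x ≠ 0`.  The quotient `c / g` measures the multiplicities of the
zeros of Hardy's function, `Lost T` the number of the zeros in `(T, 2 T]` counted with multiplicity minus the
number of the distinct ones:

* all zeros are simple if and only if `g x = c x` for one `x ≠ 0`;
* `Lost T * log (5/4) ≤ log (c T) - log (g T)` for all `T > 0`;
* for every `0 < θ < 2`: `Lost T ≪ T^θ` if and only if `log (c x) - log (g x) ≪ x^θ`;
* almost all zeros are distinct if and only if `log (g x) / log (c x) → 1`.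

Unconditionally, the Riemann hypothesis and the simplicity of all zeros together are equivalent to two limits
of real numbers, `low k a → 0` and `E a (1/2 + x) / E a (1/2) → c x` for one `x ≠ 0`.
-/

namespace Pool.Agent.Results.MP_6bc78b_nt.LostZerosAndGrowth

open Complex MeasureTheory Filter Topology

/-- Riemann's function `ξ(s) = s (s - 1) π^(-s/2) Γ(s/2) ζ(s) / 2`, as an entire function. -/
noncomputable def xi (s : ℂ) : ℂ := (s * (s - 1) * completedRiemannZeta₀ s + 1) / 2

/-- All real zeros of Hardy's function are simple: `ζ(1/2 + i t) = 0` implies `ζ'(1/2 + i t) ≠ 0`. -/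
def AllSimple : Prop := ∀ t : ℝ, riemannZeta (1 / 2 + t * I) = 0 → deriv riemannZeta (1 / 2 + t * I) ≠ 0

/-- The nontrivial zeros of `ζ` with ordinate in `(T₁, T₂]`. -/
def zeros (T₁ T₂ : ℝ) : Set ℂ := {s : ℂ | riemannZeta s = 0 ∧ 0 < s.re ∧ s.re < 1 ∧ T₁ < s.im ∧ s.im ≤ T₂}

/-- The number of the zeros with ordinate in `(T, 2 T]`, counted with multiplicity. -/
noncomputable def N (T : ℝ) : ℕ := ∑ᶠ s ∈ zeros T (2 * T), analyticOrderNatAt riemannZeta s

/-- The number of the distinct zeros with ordinate in `(T, 2 T]`. -/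
noncomputable def Nd (T : ℝ) : ℕ := (zeros T (2 * T)).ncard

/-- The number of the zeros with ordinate in `(T, 2 T]` that are lost if one counts them without multiplicity. -/
noncomputable def Lost (T : ℝ) : ℝ := (N T : ℝ) - (Nd T : ℝ)

/-- The quotient `ξ(1/2 + x) / ξ(1/2)` for real `x`, a real number. -/
noncomputable def c (x : ℝ) : ℝ := (xi (1 / 2 + x) / xi (1 / 2)).re

/-- The Mellin transform of `f` in the logarithmic variable, centred at `1/2`. -/
noncomputable def M (f : ℝ → ℂ) (s : ℂ) : ℂ := ∫ x : ℝ, f x * cexp ((s - 1 / 2) * x)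

/-- The form domain: `f` is square integrable, vanishes off `[-a, a]`, and its transform on the
critical line is square integrable against the logarithmic weight. -/
def InDom (a : ℝ) (f : ℝ → ℂ) : Prop := MemLp f 2 volume ∧ (∀ x : ℝ, a < |x| → f x = 0) ∧
  Integrable fun t : ℝ => Real.log (3 + |t|) * ‖M f (1 / 2 + t * I)‖ ^ 2

/-- Weil's quadratic form for functions supported in `[-a, a]`: the pole, the archimedean place and the
prime powers `n ≤ exp (2 a)`. -/
noncomputable def W (a : ℝ) (f : ℝ → ℂ) : ℝ :=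
  2 * (M f 1 * (starRingEnd ℂ) (M f 0)).re +
    1 / (2 * Real.pi) * (∫ t : ℝ, ((digamma ((1 / 2 + t * I) / 2)).re - Real.log Real.pi) *
      ‖M f (1 / 2 + t * I)‖ ^ 2) -
    2 * (∑ n ∈ Finset.Icc 1 ⌊Real.exp (2 * a)⌋₊, ArithmeticFunction.vonMangoldt n / Real.sqrt n *
      ∫ x : ℝ, f (x + Real.log n) * (starRingEnd ℂ) (f x)).re

/-- The mass of the transform on the window `|t| ≤ k` of the critical line. -/
noncomputable def Mass (k : ℝ) (f : ℝ → ℂ) : ℝ := ∫ t in Set.Icc (-k) k, ‖M f (1 / 2 + t * I)‖ ^ 2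

/-- The infimum of Weil's form on the functions of mass one. -/
noncomputable def low (k a : ℝ) : ℝ := sInf {r : ℝ | ∃ f : ℝ → ℂ, InDom a f ∧ Mass k f = 1 ∧ W a f = r}

/-- `f` minimises `W a / Mass k`, or its mass and its form vanish. -/
def Minimiser (k a : ℝ) (f : ℝ → ℂ) : Prop := InDom a f ∧ W a f = low k a * Mass k f

open Y23.G Y23.G.CA

lemma xi_two (s : ℂ) : xi s = Z.xi s / 2 := rfl

section

variable (k : ℝ) (hk : 0 < k)

lemma low_eq {a : ℝ} (ha : 0 < a) : low k a = CA.GM (K := ⟨k, hk⟩) (DZ := zd (L := Z.zL)) a := by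
  unfold low CA.GM
  congr 1
  ext r
  simp only [Set.mem_ofPred_eq]
  refine exists_congr fun f => ?_
  have e1 : InDom a f ↔ Hd a f := Z.inDom_iff a f
  have e2 : Mass k f = CA.NH (K := ⟨k, hk⟩) f := Z.Mass_eq (K := ⟨k, hk⟩) f
  rw [e1, e2]
  refine and_congr_right fun hf => and_congr_right fun _ => ?_
  have e3 : W a f = QQ (D := zd (L := Z.zL)) f := Z.W_eq ha (e1.2 hf)
  rw [e3]

lemma min_iff {a : ℝ} (ha : 0 < a) {f : ℝ → ℂ} (hf : InDom a f) :
    Minimiser k a f ↔ CA.KK (K := ⟨k, hk⟩) (DZ := zd (L := Z.zL)) a f := by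
  have e1 : InDom a f ↔ Hd a f := Z.inDom_iff a f
  have e2 : Mass k f = CA.NH (K := ⟨k, hk⟩) f := Z.Mass_eq (K := ⟨k, hk⟩) f
  have e3 : W a f = QQ (D := zd (L := Z.zL)) f := Z.W_eq ha hf
  rw [CA.KK_iff (K := ⟨k, hk⟩) (DZ := zd (L := Z.zL)) (e1.1 hf)]
  unfold Minimiser
  rw [e2, e3, low_eq k hk ha]
  exact ⟨fun h => h.2, fun h => ⟨hf, h⟩⟩

end

lemma noZ {k : ℝ} (hk : 0 < k) (hk' : k ≤ 11 / 2) : NoZ ⟨k, hk⟩ Z.zL := fun _ ht => X_half_ne (ht.trans hk')

lemma rh_iff' : RiemannHypothesis ↔ ∀ ρ : Zt (D := zd (L := Z.zL)), (ρ : ℂ).re = 1 / 2 := by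
  rw [Z.rh_iff]
  exact ⟨fun h ρ => h ρ ρ.2, fun h s hs => h ⟨s, hs⟩⟩

/-- the multiplicities of the zeros of `ξ` and of `ζ` agree -/
lemma order_eq {s : ℂ} (h0 : 0 < s.re) (h1 : s.re < 1) : analyticOrderAt Z.xi s = analyticOrderAt riemannZeta s := by
  have hs0 : s ≠ 0 := by rintro rfl; simp at h0
  have hs1 : s ≠ 1 := by rintro rfl; simp at h1
  have hG : Gammaℝ s ≠ 0 := Complex.Gammaℝ_ne_zero_of_re_pos h0
  have hGa : AnalyticAt ℂ Gammaℝ s := by
    have h2 := (differentiable_Gammaℝ_inv.analyticAt s).inv (inv_ne_zero hG)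
    refine h2.congr (Eventually.of_forall fun z => ?_)
    simp
  have hev : Z.xi =ᶠ[𝓝 s] fun z => z * (z - 1) * Gammaℝ z * riemannZeta z := by
    have o1 : IsOpen {z : ℂ | 0 < z.re} := isOpen_lt continuous_const Complex.continuous_re
    have o2 : IsOpen {z : ℂ | z.re < 1} := isOpen_lt Complex.continuous_re continuous_const
    filter_upwards [o1.mem_nhds h0, o2.mem_nhds h1] with z hz0 hz1
    exact Z.xi_zeta hz0 hz1
  have hζ : AnalyticAt ℂ riemannZeta s := by
    have o1 : IsOpen {z : ℂ | z ≠ 1} := isOpen_ne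
    exact DifferentiableOn.analyticAt (s := {z : ℂ | z ≠ 1})
      (fun z hz => (differentiableAt_riemannZeta hz).differentiableWithinAt) (o1.mem_nhds hs1)
  have hu : AnalyticAt ℂ (fun z : ℂ => z * (z - 1) * Gammaℝ z) s := by
    refine AnalyticAt.mul ?_ hGa
    fun_prop
  have hu0 : analyticOrderAt (fun z : ℂ => z * (z - 1) * Gammaℝ z) s = 0 := by
    rw [hu.analyticOrderAt_eq_zero]
    exact mul_ne_zero (mul_ne_zero hs0 (sub_ne_zero.2 hs1)) hG
  have h3 := analyticOrderAt_mul hu hζ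
  rw [hu0, zero_add] at h3
  rw [analyticOrderAt_congr hev]
  exact h3

theorem zeros_eq (T₁ T₂ : ℝ) : zeros T₁ T₂ = H370.zset riemannZeta T₁ T₂ := by
  ext s
  simp only [zeros, H370.zset, Set.mem_ofPred_eq]
  tauto

theorem result (k : ℝ) (hk : 0 < k) (hk' : k ≤ 11 / 2) : ∃ (E : ℝ → ℂ → ℂ) (d : ℝ → ℕ),
    (∀ a : ℝ, 0 < a → (∀ f, InDom a f → low k a * Mass k f ≤ W a f) ∧
      Differentiable ℂ (E a) ∧ (∃ s, E a s ≠ 0) ∧
      (∀ s, E a s = 0 → s.re = 1 / 2 ∧ deriv (E a) s ≠ 0) ∧ 0 < d a ∧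
      (∀ p : Polynomial ℂ, p.natDegree < d a → ∃ f, Minimiser k a f ∧ ∀ s, M f s = p.eval s * E a s) ∧
      ∀ f, Minimiser k a f → ∃ p : Polynomial ℂ, p.natDegree < d a ∧ ∀ s, M f s = p.eval s * E a s) ∧
    (∀ x : ℝ, x ≠ 0 → (RiemannHypothesis ∧ AllSimple ↔ Tendsto (low k) atTop (𝓝 0) ∧
      Tendsto (fun a => E a (1 / 2 + x) / E a (1 / 2)) atTop (𝓝 (c x : ℂ)))) ∧
    (RiemannHypothesis ↔ Tendsto (low k) atTop (𝓝 0)) ∧
    (RiemannHypothesis → ∃ g : ℝ → ℝ,
      (∀ x : ℝ, Tendsto (fun a => E a (1 / 2 + x) / E a (1 / 2)) atTop (𝓝 (g x : ℂ))) ∧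
      (∀ x : ℝ, x ≠ 0 → 1 < g x ∧ g x ≤ c x ∧ (g x = c x ↔ AllSimple)) ∧
      (∀ T : ℝ, 0 < T → Lost T * Real.log (5 / 4) ≤ Real.log (c T) - Real.log (g T)) ∧
      (∀ θ : ℝ, 0 < θ → θ < 2 → ((∃ C : ℝ, ∀ T : ℝ, 1 ≤ T → Lost T ≤ C * T ^ θ) ↔
        ∃ C : ℝ, ∀ x : ℝ, 1 ≤ x → Real.log (c x) - Real.log (g x) ≤ C * x ^ θ)) ∧
      (Tendsto (fun T => (Nd T : ℝ) / N T) atTop (𝓝 1) ↔
        Tendsto (fun x => Real.log (g x) / Real.log (c x)) atTop (𝓝 1))) := by
  let K : Win := ⟨k, hk⟩
  let L : LFun := Z.zL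
  obtain ⟨e, Ne, w1, hg⟩ := exists_gen (K := K) (L := L)
  have hno : NoZ K L := noZ hk hk'
  have hsym : Sym (zd (L := L)) := Z.sym
  have hX0 : L.X (1 / 2) ≠ 0 := by
    have := hno 0 (by rw [abs_zero]; exact hk.le)
    simpa using this
  have hfe : ∀ s, L.X (1 - s) = L.X s := Z.xi_one_sub
  have hgr : ∃ A : ℝ, ∀ w, ‖L.X (1 / 2 + w)‖ ≤ Real.exp (A * (1 + ‖w‖) ^ (3 / 2 : ℝ)) := Z.xi_growth
  have hlow : ∀ a : ℝ, 0 < a → low k a = CA.GM (K := K) (DZ := zd (L := L)) a := fun a ha => low_eq k hk ha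
  have hxi : ∀ s, xi s / xi (1 / 2) = L.X s / L.X (1 / 2) := by
    intro s
    rw [xi_two, xi_two]
    have : (2 : ℂ) ≠ 0 := two_ne_zero
    have h1 : Z.xi (1 / 2) ≠ 0 := hX0
    show Z.xi s / 2 / (Z.xi (1 / 2) / 2) = Z.xi s / Z.xi (1 / 2)
    field_simp
  have hstrip : ∀ t : ℝ, 0 < (1 / 2 + (t : ℂ) * I).re ∧ (1 / 2 + (t : ℂ) * I).re < 1 := by
    intro t
    have : (1 / 2 + (t : ℂ) * I).re = 1 / 2 := by simp
    rw [this]
    norm_num
  have hzero : ∀ t : ℝ, riemannZeta (1 / 2 + t * I) = 0 ↔ L.X (1 / 2 + t * I) = 0 := by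
    intro t
    have h1 := Z.xi_zero_iff (1 / 2 + t * I)
    constructor
    · exact fun h => h1.2 ⟨h, hstrip t⟩
    · exact fun h => (h1.1 h).1
  have hsimple : RiemannHypothesis → (AllSimple ↔ ∀ s, L.X s = 0 → deriv L.X s ≠ 0) := by
    intro hRH
    constructor
    · intro h s hs
      have h1 : s.re = 1 / 2 := Z.rh_iff.1 hRH s hs
      have h2 : s = 1 / 2 + s.im * I := by apply Complex.ext <;> simp [h1]
      have h3 := (Z.xi_zero_iff s).1 hs
      refine (Z.xi_deriv_ne_iff hs).2 ?_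
      have h4 := h s.im
      rw [← h2] at h4
      exact h4 h3.1
    · intro h t ht
      have h1 := (hzero t).1 ht
      exact (Z.xi_deriv_ne_iff h1).1 (h _ h1)
  have hRHnn : RiemannHypothesis ↔ ∀ a : ℝ, 0 < a → 0 ≤ low k a := by
    rw [rh_iff']
    constructor
    · intro h a ha
      rw [hlow a ha]
      exact CA.GM_nonneg h a
    · intro h
      refine pos_RH fun a ha f hf => ?_
      have h1 := CA.bq_nonneg (K := K) (DZ := zd (L := L)) ha hf
      unfold CA.bq at h1
      have h2 := h a ha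
      rw [hlow a ha] at h2
      have h3 := mul_nonneg h2 (CA.NH_nonneg f)
      linarith
  have hRHlim : RiemannHypothesis ↔ Tendsto (low k) atTop (𝓝 0) := by
    rw [hRHnn]
    have h1 := lim_iff (K := K) (L := L) hX0
    have h2 : Tendsto (low k) atTop (𝓝 0) ↔ Tendsto (fun a => CA.GM (K := K) (DZ := zd (L := L)) a) atTop (𝓝 0) := by
      refine tendsto_congr' ?_
      filter_upwards [eventually_gt_atTop 0] with a ha
      exact hlow a ha
    rw [h2, h1]
    exact forall_congr' fun a => imp_congr_right fun ha => by rw [hlow a ha]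
  -- the function of the square
  obtain ⟨fd, fX, fs, _⟩ := H24R2.JP.b1
  obtain ⟨Kf, hKf⟩ := H24R2.JP.grow H24R2.JP.b1
  have hfs : ∀ x, (fun x => H24R2.JP.FF x / 4) ((starRingEnd ℂ) x) = (starRingEnd ℂ) ((fun x => H24R2.JP.FF x / 4) x) := fun x => by
    simp only [fs, map_div₀, map_ofNat]
  have hfg : ∃ K : ℝ, ∀ x, ‖(fun x => H24R2.JP.FF x / 4) x‖ ≤ Real.exp (K * (1 + ‖x‖) ^ (3 / 4 : ℝ)) := ⟨Kf, fun x => by
    have h1 := hKf x
    simp only []
    rw [norm_div]
    have h2 : ‖(4 : ℂ)‖ = 4 := by norm_num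
    rw [h2]
    have h3 := norm_nonneg (H24R2.JP.FF x)
    linarith⟩
  have hfX : ∀ w, L.X (1 / 2 + w) = (fun x => H24R2.JP.FF x / 4) (w ^ 2) := fun w => by
    show Z.xi (1 / 2 + w) = H24R2.JP.FF (w ^ 2) / 4
    rw [fX]
    unfold H24R2.JP.XX Z.xi
    ring
  have hcore : RiemannHypothesis → _ := fun hRH =>
    one_point (K := K) (L := L) (f := fun x => H24R2.JP.FF x / 4) hsym hg hno hfe hgr Z.xi_not_exp (fd.div_const 4)
      hfs hfg hfX (rh_iff'.1 hRH)
  have hdat : RiemannHypothesis → _ := fun hRH =>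
    one_dat (K := K) (L := L) (f := fun x => H24R2.JP.FF x / 4) hsym hg hno hfe hgr Z.xi_not_exp (fd.div_const 4)
      hfs hfg hfX (rh_iff'.1 hRH)
  have hcx : ∀ (c' : ℝ → ℝ), (∀ x : ℝ, L.X x / L.X (1 / 2) = (c' x : ℂ)) → ∀ x : ℝ, c x = c' (1 / 2 + x) := by
    intro c' h x
    have h1 := h (1 / 2 + x)
    rw [← hxi] at h1
    unfold c
    have e1 : (1 / 2 + (x : ℂ)) = (((1 / 2 + x : ℝ)) : ℂ) := by push_cast; rfl
    rw [e1, h1, Complex.ofReal_re]
  have hcC : ∀ x : ℝ, RiemannHypothesis → xi (1 / 2 + x) / xi (1 / 2) = (c x : ℂ) := by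
    intro x hRH
    obtain ⟨g, c', h⟩ := hcore hRH
    rw [hcx c' (fun x => (h x).2.1) x]
    have e1 : (1 / 2 + (x : ℂ)) = (((1 / 2 + x : ℝ)) : ℂ) := by push_cast; rfl
    rw [e1, hxi]
    exact (h (1 / 2 + x)).2.1
  have hmult : ∀ t : ℝ, analyticOrderNatAt L.X (1 / 2 + t * I) = H370.mult riemannZeta (1 / 2 + t * I) := by
    intro t
    have h9 : analyticOrderAt L.X (1 / 2 + t * I) = analyticOrderAt riemannZeta (1 / 2 + t * I) :=
      order_eq (hstrip t).1 (hstrip t).2
    unfold H370.mult analyticOrderNatAt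
    rw [h9]
  refine ⟨EE e, fun a => Ne a + 1, fun a ha => ?_, fun x hx => ?_, hRHlim, fun hRH => ?_⟩
  · obtain ⟨k1, k2, _, _, k5, k6⟩ := structureE hsym hg ha
    refine ⟨fun f hf => ?_, k1, k2, k5, Nat.succ_pos _, fun p hp => ?_, fun f hf => ?_⟩
    · have h1 := CA.bq_nonneg (K := K) (DZ := zd (L := L)) ha ((Z.inDom_iff a f).1 hf)
      unfold CA.bq at h1
      have e2 : Mass k f = CA.NH (K := K) f := Z.Mass_eq f
      have e3 : W a f = QQ (D := zd (L := L)) f := Z.W_eq ha hf
      rw [hlow a ha, e2, e3]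
      linarith
    · obtain ⟨g, hgK, hgp⟩ := (hg.gd a ha).poly ha (p.comp (Polynomial.X + Polynomial.C (1 / 2))) (by
        have hp' : p.natDegree < Ne a + 1 := hp
        rw [Polynomial.natDegree_comp, Polynomial.natDegree_X_add_C]
        omega)
      have hgd : InDom a g := (Z.inDom_iff a g).2 hgK.1
      refine ⟨g, (min_iff k hk ha hgd).2 hgK, fun s => ?_⟩
      have h1 := hgp (s - 1 / 2)
      rw [Polynomial.eval_comp] at h1
      simp only [Polynomial.eval_add, Polynomial.eval_X, Polynomial.eval_C, sub_add_cancel] at h1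
      exact h1
    · have hf1 : InDom a f := hf.1
      have h1 := (min_iff k hk ha hf1).1 hf
      exact (k6 f ((Z.inDom_iff a f).1 hf1)).1 h1
  · have hx' : (1 / 2 + x : ℝ) ≠ 1 / 2 := by
      intro h
      exact hx (by linarith)
    constructor
    · rintro ⟨hRH, hs⟩
      refine ⟨hRHlim.1 hRH, ?_⟩
      have h6 := (equiv_simple hsym hg hno hfe hgr).1 ⟨rh_iff'.1 hRH, (hsimple hRH).1 hs⟩
      rw [← hcC x hRH, hxi]
      exact (tendstoLocallyUniformlyOn_univ.2 h6).tendsto_at (Set.mem_univ (1 / 2 + x : ℂ))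
    · rintro ⟨h1, h2⟩
      have hRH := hRHlim.2 h1
      refine ⟨hRH, (hsimple hRH).2 ?_⟩
      obtain ⟨g, c', h⟩ := hcore hRH
      obtain ⟨h3, h4, h5, _⟩ := h (1 / 2 + x)
      refine (h5 hx').2.1 ?_
      rw [hcx c' (fun x => (h x).2.1) x] at h2
      have e1 : (((1 / 2 + x : ℝ)) : ℂ) = (1 / 2 + (x : ℂ)) := by push_cast; rfl
      rw [e1] at h3
      exact_mod_cast tendsto_nhds_unique h3 h2
  · obtain ⟨g, c', h⟩ := hcore hRH
    obtain ⟨g2, c2, h2, hD, hm1⟩ := hdat hRH
    have hg2 : ∀ x, g2 x = g x := fun x => by exact_mod_cast tendsto_nhds_unique (h2 x).1 (h x).1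
    have hcc : ∀ x : ℝ, c2 (1 / 2 + x) = c x := fun x => (hcx c2 (fun x => (h2 x).2) x).symm
    have hgg : (fun y => g2 (1 / 2 + y)) = fun y => g (1 / 2 + y) := funext fun y => hg2 _
    have hccf : (fun y => c2 (1 / 2 + y)) = c := funext hcc
    rw [hgg, hccf] at hD
    have hline : ∀ s : ℂ, 0 < s.re → s.re < 1 → 0 < s.im → riemannZeta s = 0 → s.re = 1 / 2 := by
      intro s h1 h3 _ h4
      exact Z.rh_iff.1 hRH s ((Z.xi_zero_iff s).2 ⟨h4, h1, h3⟩)
    have hcnt : ∀ T : ℝ, 0 ≤ T → hD.cnt (fun t => analyticOrderNatAt L.X (1 / 2 + t * I)) T (2 * T) = (N T : ℝ) ∧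
        hD.cnt (fun t => analyticOrderNatAt L.X (1 / 2 + t * I) - 1) T (2 * T) = Lost T := by
      intro T hT
      have h3 := Run7.h833.SG.cnt_eq hD hline (fun t => by
        show (0 < t ∧ L.X (1 / 2 + t * I) = 0) ↔ _
        rw [hzero]) (fun t _ => hmult t) hm1 (B := 2 * T) hT
      have e1 : N T = H370.NN riemannZeta T (2 * T) := by
        unfold N H370.NN
        rw [zeros_eq]
        rfl
      have e2 : Nd T = H370.Nd riemannZeta T (2 * T) := by
        unfold Nd H370.Nd
        rw [zeros_eq]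
      unfold Lost
      rw [e1, e2]
      exact h3
    refine ⟨fun x => g (1 / 2 + x), fun x => ?_, fun x hx => ?_, fun T hT => ?_, fun θ h0 h1 => ?_, ?_⟩
    · have := (h (1 / 2 + x)).1
      push_cast at this
      exact this
    · have hx' : (1 / 2 + x : ℝ) ≠ 1 / 2 := by
        intro h
        exact hx (by linarith)
      obtain ⟨_, _, h3, h4⟩ := h (1 / 2 + x)
      have h5 := h4 ∅ (fun t ht => absurd ht (Finset.notMem_empty t))
      have h6 := h5.2 (fun _ => 0) (fun t ht => absurd ht (Finset.notMem_empty t))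
      rw [Finset.prod_empty, mul_one] at h6
      rw [hcx c' (fun x => (h x).2.1) x]
      exact ⟨(h3 hx').1, h6, by rw [(h3 hx').2, hsimple hRH]⟩
    · have h3 := hD.lost_le hT
      rw [(hcnt T hT.le).2] at h3
      exact h3
    · have h3 := hD.exponent hm1 h0 h1
      rw [← h3]
      refine exists_congr fun C => forall_congr' fun T => imp_congr_right fun hT => ?_
      rw [(hcnt T (by linarith)).2]
    · obtain ⟨⟨C, hC, hup⟩, b, T1, hb, hlo⟩ := Run7.h833.SG.nn_bounds H370.good_zeta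
      have e1 : ∀ T : ℝ, 0 ≤ T → (N T : ℝ) = (H370.NN riemannZeta T (2 * T) : ℝ) := by
        intro T hT
        unfold N H370.NN
        rw [zeros_eq]
        rfl
      have hinf : {t : ℝ | 0 < t ∧ L.X (1 / 2 + t * I) = 0}.Infinite := by
        intro hfin
        obtain ⟨M, hM⟩ := hfin.bddAbove
        set T : ℝ := max (max T1 M) 1 with hT
        have hT1 : 1 ≤ T := le_max_right _ _
        have h3 := hlo T ((le_max_left _ _).trans (le_max_left _ _))
        rw [← e1 T (by linarith), ← (hcnt T (by linarith)).1] at h3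
        have h4 : hD.blk T (2 * T) = ∅ := by
          rw [Finset.eq_empty_iff_forall_notMem]
          intro t ht
          rw [hD.mem_blk] at ht
          have h5 := hM ht.1
          have h6 : M ≤ T := (le_max_right _ _).trans (le_max_left _ _)
          linarith [ht.2.1]
        unfold Run7.h833.SG.Dat.cnt at h3
        rw [h4, Finset.sum_empty] at h3
        have h5 : 0 < b * T * (1 + Real.log T) := by
          have := Real.log_nonneg hT1
          positivity
        linarith
      have h3 := hD.little hinf hm1 hC (fun T hT => by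
        rw [(hcnt T (by linarith)).1, e1 T (by linarith)]
        exact hup T hT) hb (T1 := max T1 1) (fun T hT => by
        have hT1 : 1 ≤ T := (le_max_right _ _).trans hT
        rw [(hcnt T (by linarith)).1, e1 T (by linarith)]
        exact hlo T ((le_max_left _ _).trans hT))
      rw [← h3, Metric.tendsto_atTop]
      have hNpos : ∀ T : ℝ, max T1 1 ≤ T → 0 < (N T : ℝ) := by
        intro T hT
        have hT1 : 1 ≤ T := (le_max_right _ _).trans hT
        rw [e1 T (by linarith)]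
        refine lt_of_lt_of_le ?_ (hlo T ((le_max_left _ _).trans hT))
        have := Real.log_nonneg hT1
        positivity
      have hLnn : ∀ T : ℝ, 0 ≤ T → 0 ≤ Lost T := by
        intro T hT
        rw [← (hcnt T hT).2]
        exact hD.cnt_nonneg _ _ _
      constructor
      · intro hl ε hε
        obtain ⟨T0, hT0⟩ := hl ε hε
        refine ⟨max T0 (max T1 1), fun T hT => ?_⟩
        have hT2 := (le_max_right T0 _).trans hT
        have hT1 : 1 ≤ T := (le_max_right _ _).trans hT2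
        have h4 := hT0 T ((le_max_left _ _).trans hT)
        have h5 := hNpos T hT2
        rw [(hcnt T (by linarith)).1, (hcnt T (by linarith)).2]
        rw [Real.dist_eq, abs_lt] at h4
        have h6 : 1 - ε ≤ (Nd T : ℝ) / N T := by linarith [h4.1]
        rw [le_div_iff₀ h5] at h6
        unfold Lost
        linarith
      · intro hl ε hε
        obtain ⟨T0, hT0⟩ := hl (ε / 2) (by positivity)
        refine ⟨max T0 (max T1 1), fun T hT => ?_⟩
        have hT2 := (le_max_right T0 _).trans hT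
        have hT1 : 1 ≤ T := (le_max_right _ _).trans hT2
        have h4 := hT0 T ((le_max_left _ _).trans hT)
        have h5 := hNpos T hT2
        have h7 := hLnn T (by linarith)
        rw [(hcnt T (by linarith)).1, (hcnt T (by linarith)).2] at h4
        unfold Lost at h4 h7
        have h6 : 1 - ε / 2 ≤ (Nd T : ℝ) / N T := by
          rw [le_div_iff₀ h5]
          linarith
        have h8 : (Nd T : ℝ) / N T ≤ 1 := by
          rw [div_le_one h5]
          linarith
        rw [Real.dist_eq, abs_lt]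
        constructor <;> linarith

end Pool.Agent.Results.MP_6bc78b_nt.LostZerosAndGrowth
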