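import Pool.Agent.Run7.h311.CM.ZerM
import Pool.Agent.W354.ZP.Num

/-!
# All moments of `ζ'` over 67.25 percent of the zeros: the exact order, for all real exponents

For `A ≥ 1` and `0 < ε ≤ 1/10` there are positive numbers `d, δ, W, c, C` such that for all large `T` there is
a set `G` of ordinates in `(T, 2T]` of simple zeros of zeta on the critical line, at distance at least
`d / log T` from all other zeros in the critical strip, with the following properties. Write
`B(t) = ∑_{n ≤ N} b_n n ^ (-1/2-it)`.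

* at every `t` in `G` the number `log |ζ'(1/2+it)|` differs from `log log T + log |∏ (1 - p ^ (-1/2-it))^(-1)|`
  (product over the primes `p ≤ T ^ δ`) by at most `W`;
* for ALL Dirichlet polynomials `B` of length `N ≤ T ^ δ` with arbitrary complex coefficients the sum of
  `|B(t)|²` over `G` is at least `(0.6725 - ε) (log T / 2π) T ∑ |b_n|² / n`, that is, `67.25 - 100 ε` percent
  of the sum over all zeros; in particular `G` has at least `(0.6725 - ε) T log T / 2π` elements;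
* for ALL real `λ` with `|λ| ≤ A`, positive or negative, the sum of `|ζ'(1/2+it)| ^ (2λ)` over `G` lies between
  `c` and `C` times `T (log T) ^ ((λ+1)²)`;
* relative to every Dirichlet polynomial: for all real `λ` with `|λ| ≤ A` there is a Dirichlet polynomial
  `E` of length at most `T ^ (1/8)` such that for ALL `B` of length at most `T ^ δ` the sum of
  `|ζ'(1/2+it)| ^ (2λ) |B(t)|²` over `G` lies between `c` and `C` times
  `(log T) ^ (2λ+1) ∫_T^{2T} |E B|²`, and the mean square of `E` has the order `(log T) ^ (λ²)`.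

The starting library of helper97 (`Q97/UM`) contains the lower bound for the sum over all isolated zeros; here
the bounds are two-sided and hold on one set of zeros for all exponents. Proof: the zeros at which no block
of primes `∑ p ^ (-1/2-it)` is large carry most of the mass relative to every Dirichlet polynomial, and at these
`|ζ'| ^ (2λ)` has the size of the square of one Dirichlet polynomial for every `λ`.
-/

set_option autoImplicit false

open Filter Topology Complex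

namespace Pool.Agent.Results.MP_6bc78b_nt.MomentsOfDerivative

/-- the Dirichlet polynomial `∑ b_n n ^ (-1/2-it)`, `n ≤ N` -/
noncomputable def D (N : ℕ) (b : ℕ → ℂ) (t : ℝ) : ℂ :=
  ∑ n ∈ Finset.Icc 1 N, b n * (n : ℂ) ^ (-(1 / 2 + t * I))

/-- `∑ |b_n|² / n`, `n ≤ N` -/
noncomputable def norm2 (N : ℕ) (b : ℕ → ℂ) : ℝ := ∑ n ∈ Finset.Icc 1 N, ‖b n‖ ^ 2 / n

/-- the logarithm of the modulus of the Euler product over the primes `p ≤ X` at `1/2 + it` -/
noncomputable def eulerLog (X : ℕ) (t : ℝ) : ℝ :=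
  -∑ p ∈ (Finset.Icc 1 X).filter Nat.Prime, Real.log ‖1 - (p : ℂ) ^ (-(1 / 2 + t * I))‖

/-- the derivative of zeta at the point `1/2 + it` -/
noncomputable def dz (t : ℝ) : ℂ := deriv riemannZeta (1 / 2 + t * I)

/-- the ordinates `t` in `(T, 2T]` of the simple zeros `1/2 + it` of zeta at distance at least
`d / log T` from all other zeros of zeta in the open critical strip -/
def isolated (d T : ℝ) : Set ℝ :=
  {t : ℝ | T < t ∧ t ≤ 2 * T ∧ riemannZeta (1 / 2 + t * I) = 0 ∧ dz t ≠ 0 ∧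
    ∀ s : ℂ, riemannZeta s = 0 → 0 < s.re → s.re < 1 → s ≠ 1 / 2 + t * I →
      d / Real.log T ≤ ‖s - (1 / 2 + t * I)‖}

open Pool.Agent.Q97.UM Run7.h311.CM

lemma point {s : ℂ} (h : s.re = 1 / 2) : (1 / 2 + (s.im : ℂ) * I : ℂ) = s := by
  apply Complex.ext <;> simp [h]

/-- the set of ordinates of a finite set of points of the critical line -/
lemma sum_im {G : Finset ℂ} (hG : ∀ s ∈ G, s.re = 1 / 2) (F : ℝ → ℝ) :
    ∑ᶠ t ∈ (Complex.im '' (G : Set ℂ)), F t = ∑ s ∈ G, F s.im := by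
  classical
  have hinj : Set.InjOn Complex.im (G : Set ℂ) := by
    intro s hs s' hs' h
    exact Complex.ext ((hG s hs).trans (hG s' hs').symm) h
  have e : (Complex.im '' (G : Set ℂ)) = ((G.image Complex.im : Finset ℝ) : Set ℝ) := by
    rw [Finset.coe_image]
  rw [e, finsum_mem_coe_finset, Finset.sum_image hinj]

/-- truncated coefficients -/
noncomputable def cut (N : ℕ) (b : ℕ → ℂ) (n : ℕ) : ℂ := if 1 ≤ n ∧ n ≤ N then b n else 0

lemma cut_supp (N : ℕ) (b : ℕ → ℂ) : ∀ n, cut N b n ≠ 0 → 1 ≤ n ∧ n ≤ N := by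
  intro n hn
  unfold cut at hn
  by_contra h
  exact hn (if_neg h)

lemma D_cut (N : ℕ) (b : ℕ → ℂ) (t : ℝ) : D N b t = dp N (cut N b) t := by
  unfold D dp
  refine Finset.sum_congr rfl fun n hn => ?_
  rw [Finset.mem_Icc] at hn
  unfold cut
  rw [if_pos hn]

lemma norm2_cut (N : ℕ) (b : ℕ → ℂ) : norm2 N b = N2 N (cut N b) := by
  unfold norm2 N2
  refine Finset.sum_congr rfl fun n hn => ?_
  rw [Finset.mem_Icc] at hn
  unfold cut
  rw [if_pos hn]

lemma mem_isolated {d T : ℝ} (hd : d ≤ 1) (hT : 16 ≤ T) {s : ℂ} (hs : s ∈ ZI d T) :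
    s.im ∈ isolated d T := by
  have hre := (Pool.Agent.Q98.UM.mem_ZI hs).2.1
  have hmz := (Pool.Agent.Q98.UM.mem_ZI hs).2.2
  have hz := (H370.mem_Zf H370.good_zeta (by linarith : 1 ≤ T)).1 (Pool.Agent.Q98.UM.mem_ZI hs).1
  obtain ⟨-, -, h1, h2, h0⟩ := hz
  have e := point hre
  refine ⟨h1, h2, by rw [e]; exact h0, ?_, ?_⟩
  · unfold dz
    rw [e]
    exact Pool.Agent.Q98.UM.deriv_ne hre hmz
  · intro s' h3 h4 h5 h6
    rw [e] at h6 ⊢
    unfold ZI at hs
    rw [Finset.mem_filter] at hs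
    have hlog : 1 ≤ Real.log T := by
      rw [Real.le_log_iff_exp_le (by linarith)]
      linarith [Real.exp_one_lt_d9]
    have hdl : d / Real.log T ≤ 1 := by
      rw [div_le_one (by linarith)]
      linarith
    by_cases h7 : s' ∈ ZD T
    · have h8 := hs.2.2.2 s' h7 h6
      rw [norm_sub_rev] at h8
      exact h8
    · have h8 : ¬ (T / 16 < s'.im ∧ s'.im ≤ 16 * T) := fun h => h7 (by
        unfold ZD
        rw [H370.mem_Zf H370.good_zeta (by linarith : 1 ≤ T / 16)]
        exact ⟨h4, h5, h.1, h.2, h3⟩)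
      have h9 : 1 ≤ |(s' - s).im| := by
        rw [Complex.sub_im]
        by_cases h10 : T / 16 < s'.im
        · have h11 : 16 * T < s'.im := by
            by_contra h12
            exact h8 ⟨h10, by linarith⟩
          rw [abs_of_nonneg (by linarith)]
          linarith
        · rw [abs_of_nonpos (by linarith)]
          linarith
      exact hdl.trans (h9.trans (Complex.abs_im_le_norm _))

/-- **the moments of the derivative over the isolated zeros, all real orders** -/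
theorem result (A ε : ℝ) (hA : 1 ≤ A) (hε : 0 < ε) (hε1 : ε ≤ 1 / 10) :
    ∃ d δ W c C : ℝ, 0 < d ∧ 0 < δ ∧ 0 < W ∧ 0 < c ∧ 0 < C ∧ ∀ᶠ T : ℝ in atTop,
      ∃ G : Set ℝ, G ⊆ isolated d T ∧ G.Finite ∧
      (∀ t ∈ G, |Real.log ‖dz t‖ - Real.log (Real.log T) - eulerLog ⌊T ^ δ⌋₊ t| ≤ W) ∧
      (∀ (N : ℕ) (b : ℕ → ℂ), (N : ℝ) ≤ T ^ δ →
        (0.6725 - ε) * (Real.log T / (2 * Real.pi)) * (T * norm2 N b) ≤ ∑ᶠ t ∈ G, ‖D N b t‖ ^ 2) ∧
      (∀ lam : ℝ, |lam| ≤ A →
        c * (T * Real.log T ^ ((lam + 1) ^ 2)) ≤ ∑ᶠ t ∈ G, ‖dz t‖ ^ (2 * lam) ∧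
        ∑ᶠ t ∈ G, ‖dz t‖ ^ (2 * lam) ≤ C * (T * Real.log T ^ ((lam + 1) ^ 2))) ∧
      ∀ lam : ℝ, |lam| ≤ A → ∃ (M : ℕ) (e : ℕ → ℂ), (M : ℝ) ≤ T ^ (1 / 8 : ℝ) ∧
        c * Real.log T ^ (lam ^ 2) ≤ norm2 M e ∧ norm2 M e ≤ C * Real.log T ^ (lam ^ 2) ∧
        ∀ (N : ℕ) (b : ℕ → ℂ), (N : ℝ) ≤ T ^ δ →
          c * (Real.log T ^ (2 * lam + 1) * ∫ t in T..(2 * T), ‖D M e t‖ ^ 2 * ‖D N b t‖ ^ 2) ≤
            ∑ᶠ t ∈ G, ‖dz t‖ ^ (2 * lam) * ‖D N b t‖ ^ 2 ∧
          ∑ᶠ t ∈ G, ‖dz t‖ ^ (2 * lam) * ‖D N b t‖ ^ 2 ≤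
            C * (Real.log T ^ (2 * lam + 1) * ∫ t in T..(2 * T), ‖D M e t‖ ^ 2 * ‖D N b t‖ ^ 2) := by
  classical
  obtain ⟨d, δ, κ, W, c, C, hd, hδ, hκ, hκδ, hW, hc, hC, h⟩ := zer_main A ε hA hε hε1
  refine ⟨min d 1, δ, W, min (c / 2) (c ^ 2), max (2 * C) (C ^ 2), by positivity, hδ, hW, by positivity,
    by positivity, ?_⟩
  filter_upwards [h, eventually_ge_atTop 16, Real.tendsto_log_atTop.eventually_ge_atTop (1 / δ)]
    with T hz hT hLδ
  have hD1 : 1 ≤ δ * Real.log T := by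
    rw [div_le_iff₀ hδ] at hLδ
    linarith
  have hT0 : 0 < T := by linarith
  have hT1 : 1 ≤ T := by linarith
  have hL1 : 1 ≤ Real.log T := by
    rw [Real.le_log_iff_exp_le hT0]
    linarith [Real.exp_one_lt_d9]
  have hL0 : 0 < Real.log T := by linarith
  set G := GG d δ κ A W T with hG
  have hGI : ∀ s ∈ G, s ∈ ZI d T := by
    intro s hs
    rw [hG] at hs
    unfold GG at hs
    exact (Finset.mem_filter.1 hs).1
  have hGre : ∀ s ∈ G, s.re = 1 / 2 := fun s hs => (Pool.Agent.Q98.UM.mem_ZI (hGI s hs)).2.1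
  have hdz : ∀ s ∈ G, dz s.im = deriv riemannZeta s := by
    intro s hs
    unfold dz
    rw [point (hGre s hs)]
  have hsumz : ∀ (lam : ℝ) (V : ℝ → ℝ), ∑ s ∈ G, ‖dz s.im‖ ^ (2 * lam) * V s.im =
      ∑ s ∈ G, ‖deriv riemannZeta s‖ ^ (2 * lam) * V s.im := fun lam V =>
    Finset.sum_congr rfl fun s hs => by rw [hdz s hs]
  have hmd : ∀ s : ℂ, s ∈ ZI d T → s ∈ ZI (min d 1) T := by
    intro s hs
    unfold ZI at hs ⊢
    rw [Finset.mem_filter] at hs ⊢
    refine ⟨hs.1, hs.2.1, hs.2.2.1, fun s' h1 h2 => le_trans ?_ (hs.2.2.2 s' h1 h2)⟩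
    exact div_le_div_of_nonneg_right (min_le_left _ _) hL0.le
  have hTδ : T ^ (28 * κ * δ) ≤ T ^ (1 / 4 : ℝ) := Real.rpow_le_rpow_of_exponent_le hT1 (by linarith)
  set M := M9 (δ * Real.log T) κ with hM
  have hML : (M : ℝ) ≤ T ^ (26 * κ * δ) := M9_le hT0 (by linarith) hδ.le
  have hM8 : (M : ℝ) ≤ T ^ (1 / 8 : ℝ) := hML.trans (Real.rpow_le_rpow_of_exponent_le hT1 (by nlinarith))
  have h1δ : (1 : ℝ) ≤ T ^ δ := Real.one_le_rpow hT1 hδ.le
  have hcC : ∀ x : ℝ, 0 ≤ x → min (c / 2) (c ^ 2) * x ≤ c / 2 * x := fun x hx =>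
    mul_le_mul_of_nonneg_right (min_le_left _ _) hx
  refine ⟨Complex.im '' (G : Set ℂ), ?_, G.finite_toSet.image _, ?_, ?_, ?_, ?_⟩
  · rintro t ⟨s, hs, rfl⟩
    exact mem_isolated (min_le_right _ _) hT (hmd s (hGI s hs))
  · rintro t ⟨s, hs, rfl⟩
    rw [hdz s hs]
    have hs2 := hs
    rw [Finset.mem_coe, hG] at hs2
    unfold GG at hs2
    exact (Finset.mem_filter.1 hs2).2.1
  · intro N b hN
    rw [sum_im hGre fun t => ‖D N b t‖ ^ 2, norm2_cut]
    have h1 := hz.share N hN (cut N b) (cut_supp N b)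
    simp only [D_cut]
    refine le_trans ?_ h1
    have h2 := Pool.Agent.W354.ZP.cMTinv_sharp
    have h3 : 0 ≤ Real.log T / (2 * Real.pi) := by positivity
    have h4 : 0 ≤ T * N2 N (cut N b) := mul_nonneg hT0.le (Pool.Agent.Q98.UM.N2_nonneg _ _)
    refine mul_le_mul_of_nonneg_right (mul_le_mul_of_nonneg_right ?_ h3) h4
    norm_num at h2 ⊢
    linarith
  · intro lam hlam
    set e : ℕ → ℂ := ebk (δ * Real.log T) κ (ap (fun _ : Fin 1 => lam) fun _ => 0)
      (ap (fun _ : Fin 1 => lam) fun _ => 2 * 0) 0 (JB (δ * Real.log T)) with he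
    set b1 : ℕ → ℂ := fun n => if n = 1 then 1 else 0 with hb1
    have hb1s : ∀ n, b1 n ≠ 0 → 1 ≤ n ∧ n ≤ 1 := by
      intro n hn
      rw [hb1] at hn
      by_cases h : n = 1
      · omega
      · exact absurd (if_neg h) hn
    have hdp1 : ∀ t, dp 1 b1 t = 1 := by
      intro t
      unfold dp
      simp [hb1]
    have hcv : cv e b1 = fun n => if n = 0 then 0 else e n := by
      funext n
      unfold cv
      by_cases hn : n = 0
      · subst hn
        simp
      · rw [if_neg hn, Finset.sum_eq_single (n, 1)]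
        · simp [hb1]
        · intro p hp hpn
          rw [Nat.mem_divisorsAntidiagonal] at hp
          have : p.2 ≠ 1 := fun h => hpn (by
            rw [h, mul_one] at hp
            exact Prod.ext hp.1 h)
          simp [hb1, this]
        · intro h
          exact absurd (Nat.mem_divisorsAntidiagonal.2 ⟨by simp, hn⟩) h
    have hN2 : N2 (M * 1) (cv e b1) = N2 M e := by
      rw [mul_one, hcv]
      unfold N2
      refine Finset.sum_congr rfl fun n hn => ?_
      have : n ≠ 0 := by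
        have := (Finset.mem_Icc.1 hn).1
        omega
      simp [this]
    obtain ⟨m1, m2⟩ := hz.mom lam hlam 1 (by exact_mod_cast h1δ) b1 hb1s
    rw [← he, ← hM, hN2] at m1 m2
    have hl := hz.low lam hlam
    have hh := hz.high lam hlam
    rw [← he, ← hM] at hl hh
    have hsum : ∑ᶠ t ∈ (Complex.im '' (G : Set ℂ)), ‖dz t‖ ^ (2 * lam) =
        ∑ s ∈ G, ‖deriv riemannZeta s‖ ^ (2 * lam) * ‖dp 1 b1 s.im‖ ^ 2 := by
      rw [sum_im hGre fun t => ‖dz t‖ ^ (2 * lam)]
      refine Finset.sum_congr rfl fun s hs => ?_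
      rw [hdz s hs, hdp1]
      simp
    have hpow : Real.log T ^ (1 + 2 * lam) * Real.log T ^ (lam ^ 2) = Real.log T ^ ((lam + 1) ^ 2) := by
      rw [← Real.rpow_add hL0]
      congr 1
      ring
    rw [hsum]
    have hx : 0 ≤ T * Real.log T ^ ((lam + 1) ^ 2) := by positivity
    constructor
    · refine le_trans ?_ m1
      calc min (c / 2) (c ^ 2) * (T * Real.log T ^ ((lam + 1) ^ 2))
          ≤ c ^ 2 * (T * Real.log T ^ ((lam + 1) ^ 2)) := mul_le_mul_of_nonneg_right (min_le_right _ _) hx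
        _ = c * Real.log T ^ (1 + 2 * lam) * (T * (c * Real.log T ^ (lam ^ 2))) := by
            rw [← hpow]
            ring
        _ ≤ _ := by gcongr
    · refine m2.trans ?_
      calc C * Real.log T ^ (1 + 2 * lam) * (T * N2 M e)
          ≤ C * Real.log T ^ (1 + 2 * lam) * (T * (C * Real.log T ^ (lam ^ 2))) := by gcongr
        _ = C ^ 2 * (T * Real.log T ^ ((lam + 1) ^ 2)) := by
            rw [← hpow]
            ring
        _ ≤ _ := mul_le_mul_of_nonneg_right (le_max_right _ _) hx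
  · intro lam hlam
    set e : ℕ → ℂ := ebk (δ * Real.log T) κ (ap (fun _ : Fin 1 => lam) fun _ => 0)
      (ap (fun _ : Fin 1 => lam) fun _ => 2 * 0) 0 (JB (δ * Real.log T)) with he
    have hcof := b_COF κ (δ * Real.log T) (by linarith) hD1 (ap (fun _ : Fin 1 => lam) fun _ => 0)
      (ap (fun _ : Fin 1 => lam) fun _ => 2 * 0) u1 u1 0 0
    rw [Nat.sub_zero] at hcof
    have hes := hcof.1
    rw [← he, ← hM] at hes
    have hcute : cut M e = e := by
      funext n
      unfold cut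
      by_cases hn : 1 ≤ n ∧ n ≤ M
      · rw [if_pos hn]
      · rw [if_neg hn]
        by_contra h
        exact hn (hes n (Ne.symm h))
    have hl := hz.low lam hlam
    have hh := hz.high lam hlam
    rw [← he, ← hM] at hl hh
    have hLp : 0 ≤ Real.log T ^ (lam ^ 2) := by positivity
    refine ⟨M, e, hM8, ?_, ?_, fun N b hN => ?_⟩
    · rw [norm2_cut, hcute]
      refine le_trans (mul_le_mul_of_nonneg_right (min_le_left _ _) hLp) (le_trans ?_ hl)
      nlinarith
    · rw [norm2_cut, hcute]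
      refine hh.trans (mul_le_mul_of_nonneg_right ?_ hLp)
      exact le_trans (by linarith) (le_max_left _ _)
    · obtain ⟨m1, m2⟩ := hz.mom lam hlam N hN (cut N b) (cut_supp N b)
      rw [← he, ← hM] at m1 m2
      have hfs : ∀ m, cv e (cut N b) m ≠ 0 → 1 ≤ m ∧ m ≤ M * N :=
        Pool.Agent.Q98.UM.cv_supp hes (cut_supp N b)
      have hFeq : ∀ t, ‖D M e t‖ ^ 2 * ‖D N b t‖ ^ 2 = ‖dp (M * N) (cv e (cut N b)) t‖ ^ 2 := fun t => by
        rw [D_cut, D_cut, hcute, ← Pool.Agent.Q84.UM.t_DPM.1 M N e (cut N b) t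
          (Pool.Agent.Q98.UM.supp_zero hes) (Pool.Agent.Q98.UM.supp_zero (cut_supp N b)), norm_mul, mul_pow]
      have hMN : ((M * N : ℕ) : ℝ) ≤ T ^ (1 / 4 : ℝ) := by
        push_cast
        calc (M : ℝ) * N ≤ T ^ (1 / 8 : ℝ) * T ^ δ := mul_le_mul hM8 hN (Nat.cast_nonneg _) (by positivity)
          _ = T ^ (1 / 8 + δ) := by rw [← Real.rpow_add hT0]
          _ ≤ _ := Real.rpow_le_rpow_of_exponent_le hT1 (by nlinarith)
      obtain ⟨v1, v2⟩ := Pool.Agent.Q84.UM.t_MVL T hT (M * N) hMN (cv e (cut N b))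
      simp only [hFeq]
      have hsum : ∑ᶠ t ∈ (Complex.im '' (G : Set ℂ)), ‖dz t‖ ^ (2 * lam) * ‖D N b t‖ ^ 2 =
          ∑ s ∈ G, ‖deriv riemannZeta s‖ ^ (2 * lam) * ‖dp N (cut N b) s.im‖ ^ 2 := by
        rw [sum_im hGre fun t => ‖dz t‖ ^ (2 * lam) * ‖D N b t‖ ^ 2]
        refine Finset.sum_congr rfl fun s hs => ?_
        rw [hdz s hs, D_cut]
      rw [hsum]
      have hp : 0 ≤ Real.log T ^ (2 * lam + 1) := by positivity
      rw [add_comm (2 * lam) 1]
      rw [add_comm (2 * lam) 1] at hp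
      set I₀ := ∫ t in T..(2 * T), ‖dp (M * N) (cv e (cut N b)) t‖ ^ 2 with hI₀
      set n2 := N2 (M * N) (cv e (cut N b)) with hn2
      have hI0 : 0 ≤ I₀ := intervalIntegral.integral_nonneg (by linarith) fun t _ => by positivity
      constructor
      · refine le_trans ?_ m1
        calc min (c / 2) (c ^ 2) * (Real.log T ^ (1 + 2 * lam) * I₀)
            ≤ c / 2 * (Real.log T ^ (1 + 2 * lam) * (2 * T * n2)) := by
              refine mul_le_mul (min_le_left _ _) ?_ (by positivity) (by positivity)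
              exact mul_le_mul_of_nonneg_left v2 hp
          _ = _ := by ring
      · refine m2.trans ?_
        calc C * Real.log T ^ (1 + 2 * lam) * (T * n2) = 2 * C * (Real.log T ^ (1 + 2 * lam) * (T / 2 * n2)) := by
              ring
          _ ≤ max (2 * C) (C ^ 2) * (Real.log T ^ (1 + 2 * lam) * I₀) := by
              refine mul_le_mul (le_max_left _ _) (mul_le_mul_of_nonneg_left v1 hp) ?_ (by positivity)
              exact mul_nonneg hp (mul_nonneg (by positivity) (Pool.Agent.Q98.UM.N2_nonneg _ _))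

end Pool.Agent.Results.MP_6bc78b_nt.MomentsOfDerivative
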